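import Pool.Agent.H700.LR.Bound
import Pool.Agent.H700.LR.Tw

/-!
# The graph form of the log-rank conjecture for distance graphs of tree-like graphs

Let `H` be a finite connected graph and let `D` be an arbitrary set of distances. The distance graph
`G` has the vertices of `H`, and two vertices are adjacent if and only if their distance in `H` lies
in `D`. We prove the bound of the question for all distance graphs (every `D`, any number of
vertices) if `H` has bounded treewidth or bounded clique-width, or, more generally, if `H` is an
isometric subgraph of a Cartesian product of a bounded number of such graphs (trees, for instance);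
bounded may be replaced by polylogarithmic in the rank of `G`.

If `r` is the real rank of the adjacency matrix of `G`, and if the distance of `H` is a real linear
combination of the distances of `m` graphs `K i` of width (or treewidth) at most `k`, pulled back by
arbitrary maps, then `log₂ χ(G) ≤ (log₂ r + 1) (m (k + 3) + 11 (log₂ r + 1) ^ 5 + 1)`.

The case of a path `H` is the case of Toeplitz matrices.

Proof. (a) A cut of `K` across which there are at most `k` types of neighbourhoods gives
`dist u v = min (α_i u + β_i v)` with at most `k` indices `i`. The comparison of two of the sums is a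
comparison of a number of `u` with a number of `v`, so it is constant on the product of halves
of two given sets. A width decomposition has a cut which is balanced for a given weight. Hence every
pair of sets `X`, `Y` contains subsets of proportion `2 ^ (-k - 1)` on which `dist u v = a u + b v`.
(b) The same holds for the linear combinations of `m` distances, with `2 ^ (-m (k + 1))`. (c) Let
`dist u v = a u + b v` on `X × Y`, let `a` be maximal at `u0` and `b` at `v0`. All the distances
between `X` and `Y` are realized by two points of a geodesic from `u0` to `v0`, one for `u` and one
for `v`; so the matrix of `G` on `X × Y` arises from a principal submatrix of the adjacency matrix,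
that of the vertices of the geodesic, which is a Toeplitz matrix. (d) The
protocol for Toeplitz matrices of the starting files (`Pool.Agent.H630R2.LR.final_hankel`) gives a
constant rectangle in it, and the theorem on pure pairs of the starting files (`Y424.PP`) a colouring.
-/

set_option autoImplicit false

namespace Pool.Agent.Results.MP_3bd889_lc.DistanceGraphs

open Pool.Agent.H700.LR

/-- **Chromatic number and rank of the distance graphs of tree-like graphs.** Let `H` be a finite
connected graph whose distance is a linear combination of the distances of `m` connected graphs
`K i`, pulled back by maps `φ i`, each of width at most `k` or of treewidth at most `k` (for instance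
`m = 1`, `K = H`, or `H` an isometric subgraph of the Cartesian product of the `K i`). Let `D` be an
arbitrary set of distances and let `G` be the graph on the vertices of `H` in which `u ≠ v` are
adjacent if and only if their distance in `H` is in `D`. Then
`log₂ χ(G) ≤ (log₂ r + 1) (m (k + 3) + 11 (log₂ r + 1) ^ 5 + 1)`, `r` being the real rank of the
adjacency matrix of `G`. -/
theorem result (V : Type) [Fintype V] (H G : SimpleGraph V) [DecidableRel G.Adj]
    (hH : H.Connected) (D : Set ℕ) (hG : ∀ u v, G.Adj u v ↔ u ≠ v ∧ H.dist u v ∈ D)
    (m k : ℕ) (U : Fin m → Type) [∀ i, Finite (U i)] (K : ∀ i, SimpleGraph (U i))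
    (hK : ∀ i, (K i).Connected) (hw : ∀ i, WidthLE (K i) k ∨ TreewidthLE (K i) k)
    (φ : ∀ i, V → U i) (w : Fin m → ℝ)
    (hd : ∀ u v, (H.dist u v : ℝ) = ∑ i, w i * ((K i).dist (φ i u) (φ i v) : ℝ)) :
    Real.logb 2 (G.chromaticNumber.toNat : ℝ) ≤
      (Real.logb 2 ((G.adjMatrix ℝ).rank : ℝ) + 1) *
        (m * (k + 3) + 11 * (Real.logb 2 ((G.adjMatrix ℝ).rank : ℝ) + 1) ^ 5 + 1) := by
  have hw' : ∀ i, WidthLE (K i) (k + 2) := by
    intro i
    rcases hw i with h | h
    · exact h.mono (by omega)
    · have : Nonempty (U i) := (hK i).nonempty
      exact widthLE_of_treewidthLE h
  have hsep : Separable (fun u v => (H.dist u v : ℝ)) ((2 ^ (k + 3)) ^ m) := by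
    have h1 := separable_sum (fun i u v => ((K i).dist (φ i u) (φ i v) : ℝ)) w (2 ^ (k + 3))
      (fun i => host_separable (hK i) (hw' i) (φ i))
    have e : (fun u v => (H.dist u v : ℝ)) =
        (fun u v => ∑ i, w i * ((K i).dist (φ i u) (φ i v) : ℝ)) := by
      funext u v
      exact hd u v
    rw [e]
    exact h1
  have h1 := distance_bound H G hH D (Nat.one_le_pow _ _ (by positivity)) hsep hG
  have e : Real.logb 2 (((2 ^ (k + 3)) ^ m : ℕ) : ℝ) = m * (k + 3) := by
    push_cast
    rw [Real.logb_pow, Real.logb_pow, Real.logb_self_eq_one (by norm_num)]
    push_cast
    ring
  rw [e] at h1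
  exact h1

end Pool.Agent.Results.MP_3bd889_lc.DistanceGraphs
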