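import Pool.Agent.H711.IN.Final
import Pool.Graph.R_seed8.R533.VC.Graph

/-!
# Chromatic number and rank for graphs with few eigenvalues beyond `-θ` (or beyond `θ`)

Let `r` be the real rank of the adjacency matrix of the finite graph `G`, and let `t` be the number
of its eigenvalues which are less than `-θ`, or the number of those which are greater than `θ`
(`θ ≥ 0` arbitrary). Then

  `log₂ χ(G) ≤ 1800 (1 + θ) (√t + 1) (log₂ r + 1)^2`  and
  `log₂ χ(G) ≤ 140 (1 + θ)^2 (t + 1) log₂ (r + 1)`.

So the bound of the question holds for all graphs for which `θ` and `t` are polylogarithmic in the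
rank, for instance if `G` has only polylogarithmically many negative (or positive) eigenvalues, and
for the line graphs and all other graphs with least eigenvalue at least `-θ`. With the number `n₋` of
the negative and the number `n₊` of the positive eigenvalues, `n₊ + n₋ = r`, one gets
`log₂ χ(G) ≤ 1800 (√(min n₊ n₋) + 1) (log₂ r + 1)^2`.

More generally, instead of the adjacency matrix of the whole graph, one can take symmetric matrices
`S i` for the pieces of a cover of the vertices by `k` pieces; it is enough that they separate the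
edges from the nonedges inside the pieces by a gap of size one. Nothing is assumed about the edges
between different pieces.

Proof. For a protocol which decides the adjacency, two vertices `u`, `v` with the same transcripts at
`(u, u)` and at `(v, v)` are not adjacent. The protocols are those of `MP_e5d384_lc.Inertia`: a bound
for the nuclear norms of the blocks in terms of the number of eigenvalues, and Gaussian rounding.
-/

set_option autoImplicit false

namespace Pool.Agent.Results.MP_3bd889_lc.FewEigenvalues

open Finset Pool.Agent.H711.IN Pool.Agent.H630R2.LR Pool.Agent.R533.VC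

section aux

variable {V : Type} [Fintype V] [DecidableEq V] (G : SimpleGraph V) [DecidableRel G.Adj]

theorem rank_pull {P : Type} [Fintype P] (φ : P → V) :
    (comm fun p q => decide (G.Adj (φ p) (φ q))).rank ≤ (G.adjMatrix ℝ).rank := by
  have e : comm (fun p q => decide (G.Adj (φ p) (φ q))) =
      (G.adjMatrix ℝ).submatrix φ φ := by
    ext p q
    show (if decide (G.Adj (φ p) (φ q)) = true then (1 : ℝ) else 0) =
      if G.Adj (φ p) (φ q) then 1 else 0
    simp
  rw [e]
  exact Matrix.rank_submatrix_le _ _ _

/-- Colours for the pieces give colours for the whole graph. -/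
theorem glue {k c : ℕ} (P : Fin k → Type) (φ : ∀ i, P i → V) (hφ : ∀ v, ∃ i p, φ i p = v)
    (h : ∀ i, (G.comap (φ i)).Colorable (2 ^ c)) : G.Colorable (k * 2 ^ c) := by
  choose i p hip using hφ
  let C : ∀ i, (G.comap (φ i)).Coloring (Fin (2 ^ c)) := fun i => (h i).some
  have hcol : G.Coloring (Fin k × Fin (2 ^ c)) := by
    refine SimpleGraph.Coloring.mk (fun v => (i v, C (i v) (p v))) ?_
    intro u v huv heq
    have h1 : i u = i v := congrArg Prod.fst heq
    have h2 : C (i u) (p u) = C (i v) (p v) := congrArg Prod.snd heq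
    have h3 : ∀ (a b : Fin k) (x : P a) (y : P b), a = b → φ a x = u → φ b y = v →
        C a x = C b y → False := by
      intro a b x y hab hx hy hc
      subst hab
      have : (G.comap (φ a)).Adj x y := by
        rw [SimpleGraph.comap_adj, hx, hy]
        exact huv
      exact (C a).valid this hc
    exact h3 _ _ _ _ h1 (hip u) (hip v) h2
  have := hcol.colorable
  rwa [Fintype.card_prod, Fintype.card_fin, Fintype.card_fin] at this

theorem log_chi {k : ℕ} (P : Fin k → Type) (φ : ∀ i, P i → V) (hφ : ∀ v, ∃ i p, φ i p = v)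
    (B : ℝ) (hB : 0 ≤ B)
    (h : ∀ i, ∃ c : ℕ, Proto (fun p q => decide (G.Adj (φ i p) (φ i q))) c ∧ (c : ℝ) ≤ B) :
    Real.logb 2 (G.chromaticNumber.toNat : ℝ) ≤ Real.logb 2 k + B := by
  choose c hc hcB using h
  set m := ⌊B⌋₊ with hm
  have hmB : (m : ℝ) ≤ B := Nat.floor_le hB
  have hcm : ∀ i, c i ≤ m := fun i => Nat.le_floor (hcB i)
  have hcol : G.Colorable (k * 2 ^ m) := by
    refine glue G P φ hφ fun i => ?_
    have h1 : (G.comap (φ i)).Colorable (2 ^ c i) :=
      colorable_of_proto (G.comap (φ i)) _ (fun u v => by simp) (hc i)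
    exact h1.mono (Nat.pow_le_pow_right (by norm_num) (hcm i))
  have h1 : G.chromaticNumber.toNat ≤ k * 2 ^ m := by
    have h2 : G.chromaticNumber ≤ ((k * 2 ^ m : ℕ) : ℕ∞) := hcol.chromaticNumber_le
    exact (ENat.toNat_le_toNat h2 (ENat.natCast_ne_top (k * 2 ^ m))).trans
      (ENat.toNat_natCast (k * 2 ^ m)).le
  by_cases h0 : G.chromaticNumber.toNat = 0
  · rw [h0]
    have : 0 ≤ Real.logb 2 (k : ℝ) := logb_nonneg k
    simp only [Nat.cast_zero, Real.logb_zero]
    linarith
  · have hk : k ≠ 0 := by
      rintro rfl
      rw [zero_mul] at h1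
      omega
    have hk' : (0 : ℝ) < k := by exact_mod_cast Nat.pos_of_ne_zero hk
    calc Real.logb 2 (G.chromaticNumber.toNat : ℝ) ≤ Real.logb 2 ((k : ℝ) * 2 ^ m) := by
          apply Real.logb_le_logb_of_le (by norm_num)
          · exact_mod_cast Nat.pos_of_ne_zero h0
          · exact_mod_cast h1
      _ = Real.logb 2 k + m := by
          rw [Real.logb_mul hk'.ne' (by positivity), Real.logb_pow, Real.logb_self_eq_one
            (by norm_num), mul_one]
      _ ≤ Real.logb 2 k + B := by linarith

end aux

/-- **Chromatic number and rank for graphs with few eigenvalues beyond `-θ` (or beyond `θ`).**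
`r` is the real rank of the adjacency matrix of `G`.
(1) The vertices are covered by the images of `k` maps `φ i : P i → V`. For every `i` there is a real
symmetric matrix `S i` on `P i` with entries of absolute value at most `β` such that
`S i p q ≥ τ i + 1` if `φ i p` and `φ i q` are adjacent and `S i p q ≤ τ i` otherwise, and at most `t`
eigenvalues of `S i` are less than `-θ`, or at most `t` are greater than `θ`.
(2) At most `t` eigenvalues of the adjacency matrix of `G` are less than `-θ`, or at most `t` are
greater than `θ`. -/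
theorem result :
    (∀ (V : Type) [Fintype V] [DecidableEq V] (G : SimpleGraph V) [DecidableRel G.Adj] (k : ℕ)
      (P : Fin k → Type) [∀ i, Fintype (P i)] [∀ i, DecidableEq (P i)] (φ : ∀ i, P i → V)
      (S : ∀ i, Matrix (P i) (P i) ℝ) (hS : ∀ i, (S i).IsHermitian) (β θ : ℝ) (τ : Fin k → ℝ)
      (t : ℕ), (∀ v, ∃ i p, φ i p = v) → 0 ≤ β → 0 ≤ θ → (∀ i p q, |S i p q| ≤ β) →
      (∀ i, (univ.filter fun j => (hS i).eigenvalues j < -θ).card ≤ t ∨
        (univ.filter fun j => θ < (hS i).eigenvalues j).card ≤ t) →
      (∀ i p q, if G.Adj (φ i p) (φ i q) then τ i + 1 ≤ S i p q else S i p q ≤ τ i) →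
      Real.logb 2 G.chromaticNumber.toNat ≤ Real.logb 2 k +
        1800 * (β + θ) * (√t + 1) * (Real.logb 2 (G.adjMatrix ℝ).rank + 1) ^ 2 ∧
      Real.logb 2 G.chromaticNumber.toNat ≤ Real.logb 2 k +
        140 * (β + θ) ^ 2 * (t + 1) * Real.logb 2 ((G.adjMatrix ℝ).rank + 1)) ∧
    (∀ (V : Type) [Fintype V] [DecidableEq V] (G : SimpleGraph V) [DecidableRel G.Adj]
      (hG : (G.adjMatrix ℝ).IsHermitian) (θ : ℝ) (t : ℕ), 0 ≤ θ →
      ((univ.filter fun j => hG.eigenvalues j < -θ).card ≤ t ∨
        (univ.filter fun j => θ < hG.eigenvalues j).card ≤ t) →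
      Real.logb 2 G.chromaticNumber.toNat ≤
        1800 * (1 + θ) * (√t + 1) * (Real.logb 2 (G.adjMatrix ℝ).rank + 1) ^ 2 ∧
      Real.logb 2 G.chromaticNumber.toNat ≤
        140 * (1 + θ) ^ 2 * (t + 1) * Real.logb 2 ((G.adjMatrix ℝ).rank + 1)) := by
  classical
  have main : ∀ (V : Type) [Fintype V] [DecidableEq V] (G : SimpleGraph V) [DecidableRel G.Adj]
      (k : ℕ) (P : Fin k → Type) [∀ i, Fintype (P i)] [∀ i, DecidableEq (P i)] (φ : ∀ i, P i → V)
      (S : ∀ i, Matrix (P i) (P i) ℝ) (hS : ∀ i, (S i).IsHermitian) (β θ : ℝ) (τ : Fin k → ℝ)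
      (t : ℕ), (∀ v, ∃ i p, φ i p = v) → 0 ≤ β → 0 ≤ θ → (∀ i p q, |S i p q| ≤ β) →
      (∀ i, (univ.filter fun j => (hS i).eigenvalues j < -θ).card ≤ t ∨
        (univ.filter fun j => θ < (hS i).eigenvalues j).card ≤ t) →
      (∀ i p q, if G.Adj (φ i p) (φ i q) then τ i + 1 ≤ S i p q else S i p q ≤ τ i) →
      Real.logb 2 G.chromaticNumber.toNat ≤ Real.logb 2 k +
        1800 * (β + θ) * (√t + 1) * (Real.logb 2 (G.adjMatrix ℝ).rank + 1) ^ 2 ∧
      Real.logb 2 G.chromaticNumber.toNat ≤ Real.logb 2 k +
        140 * (β + θ) ^ 2 * (t + 1) * Real.logb 2 ((G.adjMatrix ℝ).rank + 1) := by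
    intro V _ _ G _ k P _ _ φ S hS β θ τ t hφ hβ0 hθ0 hβ ht hF
    set r := (G.adjMatrix ℝ).rank with hr
    have hL := logb_nonneg r
    have hL' : 0 ≤ Real.logb 2 (r + 1 : ℝ) := by
      have := logb_nonneg (r + 1)
      push_cast at this
      exact this
    have hst : 0 ≤ √(t : ℝ) := Real.sqrt_nonneg _
    have hboth : ∀ i, (∃ c : ℕ, Proto (fun p q => decide (G.Adj (φ i p) (φ i q))) c ∧
        (c : ℝ) ≤ 1800 * (β + θ) * (√t + 1) * (Real.logb 2 r + 1) ^ 2) ∧
        (∃ c : ℕ, Proto (fun p q => decide (G.Adj (φ i p) (φ i q))) c ∧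
        (c : ℝ) ≤ 140 * (β + θ) ^ 2 * (t + 1) * Real.logb 2 (r + 1 : ℝ)) := by
      intro i
      set F : P i → P i → Bool := fun p q => decide (G.Adj (φ i p) (φ i q)) with hFdef
      have hrk : (comm F).rank ≤ r := rank_pull G (φ i)
      have hsymm : ∀ z z', S i z z' = S i z' z := by
        intro z z'
        have := (hS i).apply z z'
        simpa using this.symm
      have hb : (∃ c : ℕ, Proto F c ∧
          (c : ℝ) ≤ 1800 * (β + θ) * (√t + 1) * (Real.logb 2 (comm F).rank + 1) ^ 2) ∧
          (∃ c : ℕ, Proto F c ∧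
          (c : ℝ) ≤ 140 * (β + θ) ^ 2 * (t + 1) * Real.logb 2 ((comm F).rank + 1 : ℝ)) := by
        rcases ht i with ht | ht
        · exact both F (fun z z' => S i z z') hsymm β θ hβ0 hθ0 (hβ i) t
            (negLe_of_eigenvalues (S i) (hS i) θ t ht) id id (τ i) true (fun x y => by
              have h := hF i x y
              constructor
              · intro h1
                have h2 : G.Adj (φ i x) (φ i y) := of_decide_eq_true h1
                rwa [if_pos h2] at h
              · intro h1
                have h2 : ¬ G.Adj (φ i x) (φ i y) := fun h3 => h1 (decide_eq_true h3)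
                rwa [if_neg h2] at h)
        · exact both F (fun z z' => -S i z z') (fun z z' => by rw [hsymm z z']) β θ hβ0 hθ0
            (fun z z' => by rw [abs_neg]; exact hβ i z z') t
            (negLe_of_eigenvalues' (S i) (hS i) θ t ht) id id (-τ i - 1) false (fun x y => by
              have h := hF i x y
              constructor
              · intro h1
                have h2 : ¬ G.Adj (φ i x) (φ i y) := of_decide_eq_false h1
                rw [if_neg h2] at h
                show -τ i - 1 + 1 ≤ -S i x y
                linarith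
              · intro h1
                have h2 : G.Adj (φ i x) (φ i y) := by
                  by_contra h3
                  exact h1 (decide_eq_false h3)
                rw [if_pos h2] at h
                show -S i x y ≤ -τ i - 1
                linarith)
      obtain ⟨⟨c, hc, hcc⟩, ⟨c', hc', hcc'⟩⟩ := hb
      have hl1 : Real.logb 2 ((comm F).rank : ℝ) ≤ Real.logb 2 (r : ℝ) := by
        by_cases h0 : (comm F).rank = 0
        · rw [h0]
          simpa using hL
        · apply Real.logb_le_logb_of_le (by norm_num)
          · exact_mod_cast Nat.pos_of_ne_zero h0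
          · exact_mod_cast hrk
      have hl0 := logb_nonneg (comm F).rank
      have hl2 : Real.logb 2 ((comm F).rank + 1 : ℝ) ≤ Real.logb 2 (r + 1 : ℝ) := by
        apply Real.logb_le_logb_of_le (by norm_num) (by positivity)
        have : ((comm F).rank : ℝ) ≤ r := by exact_mod_cast hrk
        linarith
      refine ⟨⟨c, hc, hcc.trans ?_⟩, ⟨c', hc', hcc'.trans ?_⟩⟩
      · refine mul_le_mul_of_nonneg_left ?_ (by positivity)
        exact pow_le_pow_left₀ (by linarith) (by linarith) 2
      · exact mul_le_mul_of_nonneg_left hl2 (by positivity)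
    constructor
    · exact log_chi G P φ hφ _ (by positivity) fun i => (hboth i).1
    · exact log_chi G P φ hφ _ (by positivity) fun i => (hboth i).2
  refine ⟨main, ?_⟩
  intro V _ _ G _ hG θ t hθ ht
  have h := main V G 1 (fun _ => V) (fun _ => id) (fun _ => G.adjMatrix ℝ) (fun _ => hG) 1 θ
    (fun _ => 0) t (fun v => ⟨0, v, rfl⟩) (by norm_num) hθ
    (fun _ p q => by
      rw [SimpleGraph.adjMatrix_apply]
      split_ifs <;> simp) (fun _ => ht)
    (fun _ p q => by
      rw [SimpleGraph.adjMatrix_apply]
      simp only [id]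
      split_ifs <;> simp)
  simpa using h

end Pool.Agent.Results.MP_3bd889_lc.FewEigenvalues
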