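import Pool.Agent.H711.SC.Diag
import Pool.Agent.H711.SC.Cube
import Pool.Graph.R_seed8.R533.VC.Graph

/-!
# Chromatic number and rank for graphs on abelian groups with neighbour-free cosets

Let the vertices of the graph `G` be covered by the images of `k` maps `φ i : A i → V`, where the
`A i` are arbitrary finite abelian groups (for instance `F_2^n`; there is no bound for the number of
generators). Nothing is assumed about the way in which the neighbourhood of `φ i x` depends on `x`:
the graphs need not have any symmetry. Let `r` be the real rank of the adjacency matrix.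

(1) Suppose that for all `x ∈ A i` the neighbourhood `{z ∈ A i | φ i z ~ φ i x}` has at most `s`
nonzero Fourier coefficients and is disjoint from a coset `x + W` of a subgroup `W = W(x)` of index
at most `N`. Then `log₂ χ(G) ≤ log₂ k + log₂ N (2 log₂ r + 2 log₂ s + 5)`.

(2) Suppose that for all `x, y ∈ A i` there is a subgroup `W = W(x, y)` of index at most `N` such that
all `φ i (x + w)`, `w ∈ W`, have the same adjacency to `φ i y` (for instance all neighbourhoods have
decision trees of depth `log₂ N` with queries of characters of order two). Then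
`log₂ χ(G) ≤ log₂ k + log₂ N (2 log₂ r + 4 (log₂ N)^2 + 5)`.

So the bound of the question holds for all graphs for which `k`, `s` and `N` are at most
quasipolynomial in the rank.

Proof. The neighbourhoods are combinations of characters from a common set `Σ` with at most `r s`
elements. If a neighbourhood avoids `x + W` then it avoids `x + W'`, where `W' ⊇ W` is the common kernel
of the quotients of characters of `Σ ∪ {1}` which are trivial on `W`, and `W'` is the common kernel of
at most `log₂ N` of these quotients. The pair of `W'` and of the coset `x + W'` is the colour of `x`: if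
`x` and `y` have the same colour then `x` is in `y + W'`, so that it is not adjacent to `y`.
-/

set_option autoImplicit false
set_option linter.unusedSectionVars false

namespace Pool.Agent.Results.MP_3bd889_lc.NeighbourFreeCosets

open Finset Pool.Agent.H711.SC Pool.Agent.H630R2.LR Pool.Agent.R533.VC

section aux

variable {V : Type} [Fintype V] [DecidableEq V] (G : SimpleGraph V) [DecidableRel G.Adj]

theorem rank_pull {P : Type} [Fintype P] (φ : P → V) :
    (comm fun p q => decide (G.Adj (φ p) (φ q))).rank ≤ (G.adjMatrix ℝ).rank := by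
  have e : comm (fun p q => decide (G.Adj (φ p) (φ q))) =
      (G.adjMatrix ℝ).submatrix φ φ := by
    ext p q
    show (if decide (G.Adj (φ p) (φ q)) = true then (1 : ℝ) else 0) =
      if G.Adj (φ p) (φ q) then 1 else 0
    simp
  rw [e]
  exact Matrix.rank_submatrix_le _ _ _

/-- Few rectangles which cover the diagonal and contain no edges give few colours. -/
theorem colour {k K : ℕ} (P : Fin k → Type) (φ : ∀ i, P i → V) (hφ : ∀ v, ∃ i p, φ i p = v)
    (h : ∀ i, ∃ (e : P i → Fin K), ∀ p q, e p = e q → ¬ G.Adj (φ i p) (φ i q)) :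
    G.Colorable (k * K) := by
  choose i p hip using hφ
  choose e he using h
  have hcol : G.Coloring (Fin k × Fin K) := by
    refine SimpleGraph.Coloring.mk (fun v => (i v, e (i v) (p v))) ?_
    intro u v huv heq
    have h1 : i u = i v := congrArg Prod.fst heq
    have h2 : e (i u) (p u) = e (i v) (p v) := congrArg Prod.snd heq
    have h3 : ∀ (a b : Fin k) (x : P a) (y : P b), a = b → φ a x = u → φ b y = v →
        e a x = e b y → False := by
      intro a b x y hab hx hy hc
      subst hab
      refine he a x y hc ?_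
      rw [hx, hy]
      exact huv
    exact h3 _ _ _ _ h1 (hip u) (hip v) h2
  have := hcol.colorable
  rwa [Fintype.card_prod, Fintype.card_fin, Fintype.card_fin] at this

theorem piece {A : Type} [AddCommGroup A] [Fintype A] (φ : A → V) (s N : ℕ)
    (hs : ∀ x, ∃ S : Finset (AddChar A ℂ), S.card ≤ s ∧
      Comb S (fun z => decide (G.Adj (φ z) (φ x))))
    (hW : ∀ x, ∃ W : AddSubgroup A, W.index ≤ N ∧ ∀ w ∈ W, ¬ G.Adj (φ (x + w)) (φ x)) :
    ∃ e : A → Fin ((((G.adjMatrix ℝ).rank * s + 2) ^ 2) ^ (Nat.log 2 N) * N),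
      ∀ x y, e x = e y → ¬ G.Adj (φ x) (φ y) := by
  classical
  obtain ⟨S, hSc, hS⟩ := common_support (fun z x => decide (G.Adj (φ z) (φ x))) s hs
  have hN : 1 ≤ N := by
    obtain ⟨W, hW1, -⟩ := hW 0
    exact (Nat.one_le_iff_ne_zero.mpr AddSubgroup.index_ne_zero_of_finite).trans hW1
  obtain ⟨I, _, P, Q, hI, h1, h2⟩ := cover_some (fun z x => decide (¬ G.Adj (φ z) (φ x)))
    (fun z x => z = x) (insert 0 S) (fun x => by
      obtain ⟨c, hc⟩ := hS x
      refine ⟨fun χ => (if χ = 0 then 1 else 0) - (if χ ∈ S then c χ else 0), fun z => ?_⟩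
      have h3 := hc z
      have h4 : ∑ χ ∈ insert 0 S, ((if χ = 0 then (1 : ℂ) else 0) - (if χ ∈ S then c χ else 0)) *
          χ z = 1 - ∑ χ ∈ S, c χ * χ z := by
        simp only [sub_mul]
        rw [Finset.sum_sub_distrib]
        congr 1
        · rw [Finset.sum_eq_single (0 : AddChar A ℂ)]
          · simp
          · intro χ _ hχ
            simp [hχ]
          · intro h
            exact absurd (Finset.mem_insert_self _ _) h
        · symm
          refine Finset.sum_subset_zero_on_sdiff (Finset.subset_insert _ _) ?_ ?_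
          · intro χ hχ
            simp [(Finset.mem_sdiff.mp hχ).2]
          · intro χ hχ
            simp [hχ]
      rw [h4, ← h3]
      by_cases h : G.Adj (φ z) (φ x) <;> simp [h]) N hN (fun z x hzx => by
      obtain ⟨W, hW1, hW2⟩ := hW x
      subst hzx
      exact ⟨W, hW1, fun w hw => decide_eq_true (hW2 w hw)⟩)
  choose e he using fun x : A => h2 x x rfl
  have hcard : Fintype.card I ≤ (((G.adjMatrix ℝ).rank * s + 2) ^ 2) ^ (Nat.log 2 N) * N := by
    refine hI.trans (Nat.mul_le_mul_right _ (Nat.pow_le_pow_left (Nat.pow_le_pow_left ?_ 2) _))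
    have h3 : (insert 0 S).card ≤ S.card + 1 := Finset.card_insert_le _ _
    have h4 : (comm (fun z x => decide (G.Adj (φ z) (φ x)))).rank * s ≤
        (G.adjMatrix ℝ).rank * s := Nat.mul_le_mul_right _ (rank_pull G φ)
    omega
  obtain ⟨ι⟩ : Nonempty (I ↪ Fin ((((G.adjMatrix ℝ).rank * s + 2) ^ 2) ^ (Nat.log 2 N) * N)) := by
    refine Function.Embedding.nonempty_of_card_le ?_
    rwa [Fintype.card_fin]
  refine ⟨fun x => ι (e x), fun x y hxy => ?_⟩
  have h3 : e x = e y := ι.injective hxy
  have h4 := h1 (e y) x (h3 ▸ (he x).1) y (he y).2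
  exact of_decide_eq_true h4

theorem bound {k : ℕ} (s N : ℕ) (A : Fin k → Type) [∀ i, AddCommGroup (A i)]
    [∀ i, Fintype (A i)] (φ : ∀ i, A i → V) (hφ : ∀ v, ∃ i a, φ i a = v)
    (hs : ∀ i x, ∃ S : Finset (AddChar (A i) ℂ), S.card ≤ s ∧
      Comb S (fun z => decide (G.Adj (φ i z) (φ i x))))
    (hW : ∀ i x, ∃ W : AddSubgroup (A i), W.index ≤ N ∧
      ∀ w ∈ W, ¬ G.Adj (φ i (x + w)) (φ i x)) :
    Real.logb 2 G.chromaticNumber.toNat ≤ Real.logb 2 k +
      Real.logb 2 N * (2 * Real.logb 2 (G.adjMatrix ℝ).rank + 2 * Real.logb 2 s + 5) := by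
  set r := (G.adjMatrix ℝ).rank with hr
  set K := ((r * s + 2) ^ 2) ^ (Nat.log 2 N) * N with hK
  have hcol : G.Colorable (k * K) := colour G A φ hφ fun i => piece G (φ i) s N (hs i) (hW i)
  have h1 : G.chromaticNumber.toNat ≤ k * K := by
    have h2 : G.chromaticNumber ≤ ((k * K : ℕ) : ℕ∞) := hcol.chromaticNumber_le
    exact (ENat.toNat_le_toNat h2 (ENat.natCast_ne_top (k * K))).trans
      (ENat.toNat_natCast (k * K)).le
  have hk := lb_nonneg k
  have hn := lb_nonneg N
  have hrr := lb_nonneg r
  have hss := lb_nonneg s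
  have h2 : lb G.chromaticNumber.toNat ≤ lb k + (((Nat.log 2 N : ℕ) : ℝ) *
      (2 * lb (r * s + 2)) + lb N) := by
    calc lb G.chromaticNumber.toNat ≤ lb (k * K) := lb_mono h1
      _ ≤ lb k + lb K := lb_mul_le _ _
      _ ≤ lb k + (lb (((r * s + 2) ^ 2) ^ (Nat.log 2 N)) + lb N) := by
          have := lb_mul_le (((r * s + 2) ^ 2) ^ (Nat.log 2 N)) N
          linarith
      _ = _ := by
          rw [lb_pow, lb_pow]
          push_cast
          ring
  have h3 : lb (r * s + 2) ≤ lb r + lb s + 2 := by
    have h4 : r * s + 2 ≤ max 1 (r * s) * 4 := by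
      rcases Nat.eq_zero_or_pos (r * s) with h | h
      · rw [h]
        norm_num
      · rw [max_eq_right h]
        omega
    have h5 : lb (max 1 (r * s)) = lb (r * s) := by
      rcases Nat.eq_zero_or_pos (r * s) with h | h
      · rw [h]
        unfold lb
        simp
      · rw [max_eq_right h]
    calc lb (r * s + 2) ≤ lb (max 1 (r * s) * 4) := lb_mono h4
      _ ≤ lb (max 1 (r * s)) + lb 4 := lb_mul_le _ _
      _ = lb (r * s) + 2 := by
          have : lb 4 = 2 := by
            have : (4 : ℕ) = 2 ^ 2 := by norm_num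
            rw [this, lb_pow, lb_two]
            norm_num
          rw [h5, this]
      _ ≤ _ := by
          have := lb_mul_le r s
          linarith
  have h6 : ((Nat.log 2 N : ℕ) : ℝ) ≤ lb N := log_le N
  have h7 : (0 : ℝ) ≤ ((Nat.log 2 N : ℕ) : ℝ) := Nat.cast_nonneg _
  show lb G.chromaticNumber.toNat ≤ lb k + lb N * (2 * lb r + 2 * lb s + 5)
  nlinarith [lb_nonneg (r * s + 2), mul_nonneg h7 (lb_nonneg (r * s + 2)),
    mul_le_mul h6 h3 (lb_nonneg _) hn]

end aux

/-- **Chromatic number and rank for graphs on abelian groups with neighbour-free cosets.** The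
vertices of `G` are covered by the images of the maps `φ i : A i → V`, `i < k`, of finite abelian
groups, `r` is the real rank of the adjacency matrix.
(1) For all `x` in `A i` the neighbourhood of `φ i x`, pulled back to `A i`, is a combination of at
most `s` characters and is disjoint from `x + W` for a subgroup `W` of index at most `N`.
(2) For all `x`, `y` in `A i` the adjacency of `φ i (x + w)` and `φ i y` does not depend on `w` in a
subgroup `W` of index at most `N`. -/
theorem result :
    (∀ (V : Type) [Fintype V] [DecidableEq V] (G : SimpleGraph V) [DecidableRel G.Adj]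
      (k s N : ℕ) (A : Fin k → Type) [∀ i, AddCommGroup (A i)] [∀ i, Fintype (A i)]
      (φ : ∀ i, A i → V), (∀ v, ∃ i a, φ i a = v) →
      (∀ i x, ∃ (S : Finset (AddChar (A i) ℂ)) (a : AddChar (A i) ℂ → ℂ), S.card ≤ s ∧
        ∀ z, (if G.Adj (φ i z) (φ i x) then (1 : ℂ) else 0) = ∑ χ ∈ S, a χ * χ z) →
      (∀ i x, ∃ W : AddSubgroup (A i), W.index ≤ N ∧ ∀ w ∈ W, ¬ G.Adj (φ i (x + w)) (φ i x)) →
      Real.logb 2 G.chromaticNumber.toNat ≤ Real.logb 2 k + Real.logb 2 N *
        (2 * Real.logb 2 (G.adjMatrix ℝ).rank + 2 * Real.logb 2 s + 5)) ∧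
    (∀ (V : Type) [Fintype V] [DecidableEq V] (G : SimpleGraph V) [DecidableRel G.Adj]
      (k N : ℕ) (A : Fin k → Type) [∀ i, AddCommGroup (A i)] [∀ i, Fintype (A i)]
      (φ : ∀ i, A i → V), (∀ v, ∃ i a, φ i a = v) →
      (∀ i x y, ∃ W : AddSubgroup (A i), W.index ≤ N ∧
        ∀ w ∈ W, (G.Adj (φ i (x + w)) (φ i y) ↔ G.Adj (φ i x) (φ i y))) →
      Real.logb 2 G.chromaticNumber.toNat ≤ Real.logb 2 k + Real.logb 2 N *
        (2 * Real.logb 2 (G.adjMatrix ℝ).rank + 4 * Real.logb 2 N ^ 2 + 5)) := by
  classical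
  constructor
  · intro V _ _ G _ k s N A _ _ φ hφ hs hW
    refine bound G s N A φ hφ (fun i x => ?_) hW
    obtain ⟨S, a, hS, ha⟩ := hs i x
    refine ⟨S, hS, a, fun z => ?_⟩
    rw [← ha z]
    simp
  · intro V _ _ G _ k N A _ _ φ hφ hW
    have h := bound G ((N ^ 2) ^ (Nat.log 2 N)) N A φ hφ (fun i x => by
      have hN : 0 < N := by
        obtain ⟨W, hW1, -⟩ := hW i 0 0
        exact (Nat.pos_of_ne_zero AddSubgroup.index_ne_zero_of_finite).trans_le hW1
      exact (Cert.tree (N := N) (f := fun z => decide (G.Adj (φ i z) (φ i x))) (fun z => by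
        obtain ⟨W, hW1, hW2⟩ := hW i z x
        exact ⟨W, hW1, fun w hw => decide_eq_decide.mpr (hW2 w hw)⟩)).comb hN) (fun i x => by
      obtain ⟨W, hW1, hW2⟩ := hW i x x
      exact ⟨W, hW1, fun w hw h => G.loopless.irrefl _ ((hW2 w hw).mp h)⟩)
    refine h.trans ?_
    have hn := lb_nonneg N
    have hrr := lb_nonneg (G.adjMatrix ℝ).rank
    have h6 : ((Nat.log 2 N : ℕ) : ℝ) ≤ lb N := log_le N
    have h7 : lb ((N ^ 2) ^ (Nat.log 2 N)) ≤ 2 * lb N ^ 2 := by
      rw [lb_pow, lb_pow]
      push_cast
      nlinarith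
    show lb k + lb N * (2 * lb (G.adjMatrix ℝ).rank + 2 * lb ((N ^ 2) ^ (Nat.log 2 N)) + 5) ≤
      lb k + lb N * (2 * lb (G.adjMatrix ℝ).rank + 4 * lb N ^ 2 + 5)
    have h8 := mul_le_mul_of_nonneg_left h7 hn
    nlinarith

end Pool.Agent.Results.MP_3bd889_lc.NeighbourFreeCosets
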