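import Pool.Agent.H700.LR.SbpGraph

/-!
# The graph form of the log-rank conjecture for small bounded-error protocols with leaves of small
VC dimension

Let `G` be a graph of real rank `r`. Suppose that the adjacency of two different vertices `u`, `v`, or
their non-adjacency, is characterized by a randomized two-party protocol of the following kind. After
`c` bits have been exchanged, the protocol accepts according to the value at `(u, v)` of an
arbitrary function of VC dimension at most `d` that depends on the transcript and on the random bits.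
It accepts with probability at least `α` in the first case and at most `(1 - 1 / g) α` in the other,
where `α > 0` may be very small. Then
`log₂ χ(G) ≤ 525 g ^ 2 (d + 1) (c + log₂ (1 / α) + log₂ (d + 1) + 1) (log₂ r + 1) ^ 3`. So the bound
of the question holds if `g`, `d`, `c` and `log (1 / α)` are at most polylogarithmic in the rank.

This contains: nondeterministic protocols, i.e. graphs whose edge set (or whose set of non-edges) is
the union of `m` arbitrary relations of VC dimension at most `d` (`α = 1 / m`, `g = 1`), where `m` may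
be quasipolynomial in the rank; nondeterminism followed by randomness; randomized protocols with a
two-sided error `1 / 2 - γ`, `γ` at least inverse polylogarithmic. Neither the VC dimension of `G` nor
the number of different rows of `G` is restricted. For the class of randomized protocols with
error `1 / 3` the result is in the starting files (`RandomizedVCAdjacency`).

Proof. Consider two disjoint sets `A`, `B` of vertices. If the pairs of the first kind are a
fraction less than `1 / (4 (r + 1))` in `A × B`, then this rectangle is nearly pure. Otherwise take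
the conjunction of `t = O(g log r)` independent samples of the protocols; for a suitable choice of
the samples, the conjunction `f` is true at a fraction of `α ^ t / r ^ O(1)` of the pairs, and the pairs
of the second kind are a fraction less than `1 / r ^ O(1)` of these. The columns of `f` fall into
few clusters, by the packing theorem for set systems of polynomial growth, and so `f` is nearly the
indicator function of a union of few rectangles; one of them contains nearly only pairs of the first
kind. Nearly pure pairs suffice (`Y424.PP` of the starting files).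
-/

set_option autoImplicit false

namespace Pool.Agent.Results.MP_3bd889_lc.SmallProbabilityProtocols

open Finset
open Pool.Agent.H700.LR
open Pool.Agent.R533.VC (Growth VCdim growth_of_vc tr tr_rect tr_length)

/-- **Chromatic number and rank for graphs with small bounded-error protocols whose leaves have small
VC dimension.** `VCdim f d` says that `k ≤ d` whenever all `2 ^ k` patterns occur among the columns of
`f` at some `k` rows. Let `Ω` be a finite probability space (with the uniform measure), and for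
`ω ∈ Ω` consider the protocol with `c` bits given by `owner ω`, `a ω`, `b ω`, which outputs the value
at `(u, v)` of the function `h ω t`, `t` being the transcript; all `h ω t` have VC dimension at most
`d`. Suppose that for all pairs of different vertices which are adjacent (if `β = true`; not adjacent,
if `β = false`) the output is `true` with probability at least `α`, and for the other pairs of
different vertices with probability at most `(1 - 1 / g) α`. Then
`log₂ χ(G) ≤ 525 g ^ 2 (d + 1) (c + log₂ (1 / α) + log₂ (d + 1) + 1) (log₂ r + 1) ^ 3`, `r` being the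
real rank of the adjacency matrix. -/
theorem result (V Ω : Type) [Fintype V] [Fintype Ω] [Nonempty Ω] (G : SimpleGraph V)
    [DecidableRel G.Adj] (β : Bool) (c d g : ℕ) (hg : 1 ≤ g) (α : ℝ) (hα : 0 < α) (hα1 : α ≤ 1)
    (owner : Ω → List Bool → Bool) (a : Ω → List Bool → V → Bool) (b : Ω → List Bool → V → Bool)
    (h : Ω → List Bool → V → V → Bool) (hd : ∀ ω t, VCdim (h ω t) d)
    (h1 : ∀ u v, u ≠ v → decide (G.Adj u v) = β → α * (Fintype.card Ω : ℝ) ≤
      ((univ.filter (fun ω => leafValue c (owner ω) (a ω) (b ω) (h ω) u v = true)).card : ℝ))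
    (h0 : ∀ u v, u ≠ v → decide (G.Adj u v) ≠ β →
      ((univ.filter (fun ω => leafValue c (owner ω) (a ω) (b ω) (h ω) u v = true)).card : ℝ) ≤
        (1 - 1 / (g : ℝ)) * (α * (Fintype.card Ω : ℝ))) :
    Real.logb 2 (G.chromaticNumber.toNat : ℝ) ≤
      525 * (g : ℝ) ^ 2 * ((d : ℝ) + 1) *
        (c + Real.logb 2 (1 / α) + Real.logb 2 ((d : ℝ) + 1) + 1) *
        (Real.logb 2 ((G.adjMatrix ℝ).rank : ℝ) + 1) ^ 3 := by
  classical
  let F : V → V → Bool := fun u v => decide (G.Adj u v)
  have hFG : ∀ u v, F u v = true ↔ G.Adj u v := fun u v => decide_eq_true_iff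
  let f : Ω × List.Vector Bool c → V → V → Bool := fun p u v =>
    decide (tr (owner p.1) (a p.1) (b p.1) u v c = p.2.1) && h p.1 p.2.1 u v
  -- growth
  have hf : ∀ p, Growth (f p) (d + 1) := by
    intro p
    refine growth_rect (h p.1 p.2.1) d (growth_of_vc _ _ (hd _ _)) (f p)
      (fun u => decide (∃ v, tr (owner p.1) (a p.1) (b p.1) u v c = p.2.1))
      (fun v => decide (∃ u, tr (owner p.1) (a p.1) (b p.1) u v c = p.2.1)) ?_
    intro u v
    simp only [f]
    congr 1
    by_cases hh : tr (owner p.1) (a p.1) (b p.1) u v c = p.2.1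
    · have e1 : ∃ v, tr (owner p.1) (a p.1) (b p.1) u v c = p.2.1 := ⟨v, hh⟩
      have e2 : ∃ u, tr (owner p.1) (a p.1) (b p.1) u v c = p.2.1 := ⟨u, hh⟩
      rw [decide_eq_true hh, decide_eq_true e1, decide_eq_true e2]
      rfl
    · have e3 : ¬ ((∃ v, tr (owner p.1) (a p.1) (b p.1) u v c = p.2.1) ∧
          ∃ u, tr (owner p.1) (a p.1) (b p.1) u v c = p.2.1) := by
        rintro ⟨⟨v', hv'⟩, u', hu'⟩
        apply hh
        have := tr_rect (owner p.1) (a p.1) (b p.1) u u' v' v c (hv'.trans hu'.symm)
        rw [this, hv']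
      rw [decide_eq_false hh]
      by_cases e1 : ∃ v, tr (owner p.1) (a p.1) (b p.1) u v c = p.2.1
      · have e2 : ¬ ∃ u, tr (owner p.1) (a p.1) (b p.1) u v c = p.2.1 := fun e2 => e3 ⟨e1, e2⟩
        rw [decide_eq_false e2, Bool.and_false]
      · rw [decide_eq_false e1, Bool.false_and]
  -- counting
  have hcount : ∀ u v, (univ.filter (fun p => f p u v = true)).card =
      (univ.filter (fun ω => leafValue c (owner ω) (a ω) (b ω) (h ω) u v = true)).card := by
    intro u v
    symm
    refine card_bij (fun ω _ => (ω, ⟨tr (owner ω) (a ω) (b ω) u v c, tr_length _ _ _ _ _ _⟩))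
      ?_ ?_ ?_
    · intro ω hω
      have hω2 := (mem_filter.1 hω).2
      refine mem_filter.2 ⟨mem_univ _, ?_⟩
      simp only [f, decide_true, Bool.true_and]
      exact hω2
    · intro ω _ ω' _ heq
      exact congrArg Prod.fst heq
    · rintro ⟨ω, t⟩ hp
      have hp2 := (mem_filter.1 hp).2
      simp only [f, Bool.and_eq_true, decide_eq_true_eq] at hp2
      refine ⟨ω, mem_filter.2 ⟨mem_univ _, ?_⟩, ?_⟩
      · have e : leafValue c (owner ω) (a ω) (b ω) (h ω) u v =
            h ω (tr (owner ω) (a ω) (b ω) u v c) u v := rfl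
        rw [e, hp2.1]
        exact hp2.2
      · refine Prod.ext rfl (Subtype.ext ?_)
        exact hp2.1
  have hNe : Nonempty (List.Vector Bool c) := ⟨List.Vector.replicate c true⟩
  have hcardΩ : (Fintype.card (Ω × List.Vector Bool c) : ℝ) = (Fintype.card Ω : ℝ) * 2 ^ c := by
    rw [Fintype.card_prod, card_vector, Fintype.card_bool]
    push_cast
    ring
  have h2c : (0 : ℝ) < 2 ^ c := by positivity
  have hαN : α / 2 ^ c * (Fintype.card (Ω × List.Vector Bool c) : ℝ) = α * (Fintype.card Ω : ℝ) := by
    rw [hcardΩ]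
    field_simp
  -- the parameters
  have hlogα : 0 ≤ Real.logb 2 (1 / α) := by
    refine Real.logb_nonneg (by norm_num) ?_
    rw [le_div_iff₀ hα]
    linarith
  obtain ⟨ℓ, hℓ⟩ : ∃ ℓ : ℕ, ℓ = c + ⌈Real.logb 2 (1 / α)⌉₊ := ⟨_, rfl⟩
  have hℓ1 : (1 : ℝ) ≤ α / 2 ^ c * 2 ^ ℓ := by
    rw [hℓ, pow_add]
    have e1 : 1 / α ≤ 2 ^ ⌈Real.logb 2 (1 / α)⌉₊ := by
      have e2 : 1 / α = (2 : ℝ) ^ Real.logb 2 (1 / α) := by
        rw [Real.rpow_logb (by norm_num) (by norm_num) (by positivity)]
      rw [← Real.rpow_natCast]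
      calc 1 / α = (2 : ℝ) ^ Real.logb 2 (1 / α) := e2
        _ ≤ (2 : ℝ) ^ ((⌈Real.logb 2 (1 / α)⌉₊ : ℕ) : ℝ) :=
          Real.rpow_le_rpow_of_exponent_le (by norm_num) (Nat.le_ceil _)
    rw [div_le_iff₀ hα] at e1
    calc (1 : ℝ) ≤ 2 ^ ⌈Real.logb 2 (1 / α)⌉₊ * α := e1
      _ = α / 2 ^ c * (2 ^ c * 2 ^ ⌈Real.logb 2 (1 / α)⌉₊) := by
        field_simp
  have hℓ2 : (ℓ : ℝ) ≤ c + Real.logb 2 (1 / α) + 1 := by
    rw [hℓ]
    push_cast
    have := (Nat.ceil_lt_add_one hlogα).le
    linarith
  obtain ⟨ρ, hρ⟩ : ∃ ρ, ρ = Nat.clog 2 ((G.adjMatrix ℝ).rank + 1) := ⟨_, rfl⟩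
  obtain ⟨T, hT⟩ : ∃ T, T = Nat.clog 2 (2 * (g * (2 * ρ + 5) * (d + 1))) := ⟨_, rfl⟩
  have hmat : Pool.Agent.Y424.LR.mat F = G.adjMatrix ℝ := by
    ext x y
    rw [SimpleGraph.adjMatrix_apply, Pool.Agent.Y424.LR.mat, Matrix.of_apply,
      Pool.Agent.Y424.LR.bv]
    by_cases hxy : G.Adj x y
    · rw [if_pos ((hFG x y).2 hxy), if_pos hxy]
    · rw [if_neg (fun h' => hxy ((hFG x y).1 h')), if_neg hxy]
  have hpure := sbp_pure F β (fun x => by simp [F]) f (d + 1) g ℓ ρ T (α / 2 ^ c) (by positivity) hg
    hf (fun x y hxy hF => by rw [hαN, hcount]; exact h1 x y hxy hF)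
    (fun x y hxy hF => by rw [hαN, hcount]; exact h0 x y hxy hF) hℓ1
    (by rw [hmat, hρ]; exact clog_pow_le _) (by rw [hT]; exact clog_pow_le _)
  have hpos : 1 ≤ 2 * (4 * 2 ^ sbpExp g ρ (d + 1) ℓ T) := by
    have : 1 ≤ 2 ^ sbpExp g ρ (d + 1) ℓ T := Nat.one_le_two_pow
    omega
  have h2 := bound_of_pure G F hFG hpos hpure
  have e : Real.logb 2 ((2 * (4 * 2 ^ sbpExp g ρ (d + 1) ℓ T) : ℕ) : ℝ) =
      3 + (sbpExp g ρ (d + 1) ℓ T : ℝ) := by
    have : (2 * (4 * 2 ^ sbpExp g ρ (d + 1) ℓ T) : ℕ) = 2 ^ (3 + sbpExp g ρ (d + 1) ℓ T) := by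
      rw [pow_add]
      norm_num
      ring
    rw [this, Nat.cast_pow, Real.logb_pow]
    norm_num
  rw [e] at h2
  have h3 := sbp_num g (d + 1) (G.adjMatrix ℝ).rank ρ ℓ T (c + Real.logb 2 (1 / α) + 1) hg (by omega)
    (by linarith [Nat.cast_nonneg (α := ℝ) c]) hρ hℓ2 hT
  have hL0 := Pool.Agent.H630R2.LR.logb_nonneg (G.adjMatrix ℝ).rank
  push_cast at h3
  calc Real.logb 2 (G.chromaticNumber.toNat : ℝ)
      ≤ (Real.logb 2 ((G.adjMatrix ℝ).rank : ℝ) + 1) *
        (3 + (sbpExp g ρ (d + 1) ℓ T : ℝ) + 1) := h2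
    _ = (Real.logb 2 ((G.adjMatrix ℝ).rank : ℝ) + 1) *
        ((sbpExp g ρ (d + 1) ℓ T : ℝ) + 4) := by ring
    _ ≤ (Real.logb 2 ((G.adjMatrix ℝ).rank : ℝ) + 1) *
        (525 * g ^ 2 * (d + 1) * (c + Real.logb 2 (1 / α) + 1 + Real.logb 2 (d + 1)) *
          (Real.logb 2 ((G.adjMatrix ℝ).rank : ℝ) + 1) ^ 2) :=
        mul_le_mul_of_nonneg_left h3 (by linarith)
    _ = _ := by ring

end Pool.Agent.Results.MP_3bd889_lc.SmallProbabilityProtocols
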